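import Pool.Agent.H6.TP.Targets2

/-!
# Rows TRN, SHL, SZK, UPB, NEG, TPB of the joint
-/

set_option autoImplicit false

open Finset Pool.Agent.H6.N4D

namespace Pool.Agent.H91.TP

open Pool.Agent.H6.TP

open Pool.Agent.H93.EB (cr M phi lg ind t Str Base)

theorem pf_TRN : T_TRN := by
  have h1 : ∀ (lam : ℕ → ℝ) (N n : ℕ) (θ : ℝ), ‖cr lam N n θ‖ = cor lam N n θ := by
    intro lam N n θ
    unfold cr cor
    rw [one_div, inv_mul_eq_div]
  refine ⟨h1, ?_, ?_, ?_⟩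
  · intro lam N n
    unfold M Mx
    simp only [h1]
  · intro x
    rfl
  · intro X E
    unfold lg ind
    rw [Finset.sum_filter]
    apply sum_congr rfl
    intro n _
    by_cases h : E n
    · simp only [h, if_true]
    · simp only [h, if_false, zero_div]

theorem shift1 (j : ℕ) (a : ℕ → ℝ) (ha : ∀ n, 0 ≤ a n ∧ a n ≤ 1) (X : ℕ) :
    ∑ n ∈ Icc 1 X, a (n + j) / n ≤ ∑ m ∈ Icc 1 (X + j), a m / m - ∑ m ∈ Icc 1 j, a m / m +
      (harmonic X : ℝ) - (harmonic (X + j) : ℝ) + (harmonic j : ℝ) := by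
  induction X with
  | zero => simp
  | succ X ih =>
    rw [sum_Icc_succ_top (by omega), show X + 1 + j = (X + j) + 1 by ring,
      sum_Icc_succ_top (by omega), harmonic_succ, harmonic_succ]
    obtain ⟨h0, h1⟩ := ha (X + j + 1)
    have hp : (0 : ℝ) < (X : ℝ) + 1 := by positivity
    have hq : (0 : ℝ) < (X : ℝ) + j + 1 := by positivity
    have h2 : a (X + j + 1) / ((X + 1 : ℕ) : ℝ) ≤ a (X + j + 1) / ((X + j + 1 : ℕ) : ℝ) +
        (((X + 1 : ℕ) : ℚ)⁻¹ : ℚ) - (((X + j + 1 : ℕ) : ℚ)⁻¹ : ℚ) := by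
      push_cast
      rw [div_eq_mul_inv, div_eq_mul_inv]
      have h3 : ((X : ℝ) + j + 1)⁻¹ ≤ ((X : ℝ) + 1)⁻¹ := by
        apply inv_anti₀ hp
        have : (0 : ℝ) ≤ j := Nat.cast_nonneg _
        linarith
      nlinarith
    push_cast at h2 ih ⊢
    linarith

theorem shift2 (X : ℕ) (a : ℕ → ℝ) (ha : ∀ n, 0 ≤ a n ∧ a n ≤ 1) (j : ℕ) :
    ∑ m ∈ Icc 1 (X + j), a m / m ≤ ∑ m ∈ Icc 1 X, a m / m + (harmonic (X + j) : ℝ) -
      (harmonic X : ℝ) := by
  induction j with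
  | zero => simp
  | succ j ih =>
    rw [show X + (j + 1) = (X + j) + 1 by ring, sum_Icc_succ_top (by omega), harmonic_succ]
    obtain ⟨h0, h1⟩ := ha (X + j + 1)
    have h2 : a (X + j + 1) / ((X + j + 1 : ℕ) : ℝ) ≤ (((X + j + 1 : ℕ) : ℚ)⁻¹ : ℚ) := by
      push_cast
      rw [div_eq_mul_inv]
      have h3 : 0 ≤ ((X : ℝ) + j + 1)⁻¹ := by positivity
      nlinarith
    push_cast at h2 ih ⊢
    linarith

theorem pf_SHL : T_SHL := by
  intro X j a hX ha
  have h1 := shift1 j a ha X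
  have h2 := shift2 X a ha j
  have h3 : 0 ≤ ∑ m ∈ Icc 1 j, a m / m :=
    sum_nonneg fun m _ => div_nonneg (ha m).1 (Nat.cast_nonneg _)
  have h4 : (harmonic j : ℝ) ≤ 1 + Real.log j := harmonic_le_one_add_log j
  have h5 : Real.log j ≤ Real.log (1 + j) := by
    rcases Nat.eq_zero_or_pos j with h | h
    · subst h; simp
    · apply Real.log_le_log (by exact_mod_cast h)
      linarith
  have h6 : 0 ≤ Real.log (1 + (j : ℝ)) := by
    apply Real.log_nonneg
    have : (0 : ℝ) ≤ j := Nat.cast_nonneg _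
    linarith
  linarith

theorem pf_SZK : T_SZK := by
  refine ⟨Real.exp ((8 : ℝ) ^ 25), ?_⟩
  intro X hX
  have hX0 : (0 : ℝ) < X := lt_of_lt_of_le (Real.exp_pos _) hX
  set L := Real.log (X : ℝ) with hL
  have hL8 : (8 : ℝ) ^ 25 ≤ L := by
    rw [hL, Real.le_log_iff_exp_le hX0]
    exact hX
  have hL0 : 0 < L := lt_of_lt_of_le (by positivity) hL8
  have hL1 : 1 ≤ L := le_trans (by norm_num) hL8
  set A := L ^ (24 / 25 : ℝ) with hA
  have hB8 : (8 : ℝ) ≤ L ^ (1 / 25 : ℝ) := by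
    have h1 : ((8 : ℝ) ^ 25) ^ (1 / 25 : ℝ) ≤ L ^ (1 / 25 : ℝ) :=
      Real.rpow_le_rpow (by positivity) hL8 (by norm_num)
    have h2 : ((8 : ℝ) ^ 25) ^ (1 / 25 : ℝ) = 8 := by
      rw [← Real.rpow_natCast, ← Real.rpow_mul (by norm_num)]
      norm_num
    rw [h2] at h1
    exact h1
  have hAB : A * L ^ (1 / 25 : ℝ) = L := by
    rw [hA, ← Real.rpow_add hL0]
    norm_num
  have hA8 : 8 ≤ A := by
    refine hB8.trans ?_
    rw [hA]
    exact Real.rpow_le_rpow_of_exponent_le hL1 (by norm_num)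
  have hA2 : 2 * A ≤ L / 4 := by
    nlinarith
  have p1 : ∀ H : ℕ, Real.log H ≤ 2 * A → (H : ℝ) ≤ (X : ℝ) ^ (1 / 4 : ℝ) := by
    intro H hH
    rcases Nat.eq_zero_or_pos H with h | h
    · subst h
      push_cast
      positivity
    · have h0 : (0 : ℝ) < H := by exact_mod_cast h
      rw [← Real.exp_log h0, Real.rpow_def_of_pos hX0]
      apply Real.exp_le_exp.mpr
      rw [← hL]
      linarith
  have hl2 : Real.log 2 ≤ 1 := by
    have := Real.log_two_lt_d9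
    linarith
  have hl2' : 0.69 ≤ Real.log 2 := by
    have := Real.log_two_gt_d9
    linarith
  refine ⟨p1, ?_, ?_⟩
  · intro k hk
    apply p1
    push_cast
    rw [Real.log_pow]
    have hk0 : (0 : ℝ) ≤ k := Nat.cast_nonneg _
    nlinarith
  · refine ⟨⌈A / Real.log 2⌉₊, ?_, ?_, ?_⟩
    · have h1 := Nat.ceil_lt_add_one (a := A / Real.log 2) (by positivity)
      have h2 : A / Real.log 2 ≤ A / 0.69 :=
        div_le_div_of_nonneg_left (by linarith) (by norm_num) hl2'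
      have h3 : A / 0.69 + 1 ≤ 2 * A := by
        rw [← sub_nonneg]
        have h4 : 2 * A - (A / 0.69 + 1) = (38 / 69) * A - 1 := by
          ring
        rw [h4]
        linarith
      linarith
    · have h1 := Nat.le_ceil (A / Real.log 2)
      rw [div_le_iff₀ (by linarith)] at h1
      push_cast
      rw [← Real.rpow_natCast, Real.rpow_def_of_pos (by norm_num)]
      apply Real.exp_le_exp.mpr
      linarith
    · have h1 := Nat.le_ceil (A / Real.log 2)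
      refine le_trans ?_ h1
      have h2 : L ^ (23 / 25 : ℝ) ≤ A := by
        rw [hA]
        exact Real.rpow_le_rpow_of_exponent_le hL1 (by norm_num)
      refine h2.trans ?_
      rw [le_div_iff₀ (by linarith)]
      nlinarith

theorem le_self_of_quarter {X : ℕ} (hX : 1 ≤ X) {Y : ℝ} (hY : Y ≤ (X : ℝ) ^ (1 / 4 : ℝ)) :
    Y ≤ X := by
  have h1 : (1 : ℝ) ≤ X := by exact_mod_cast hX
  refine hY.trans ?_
  calc (X : ℝ) ^ (1 / 4 : ℝ) ≤ (X : ℝ) ^ (1 : ℝ) :=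
        Real.rpow_le_rpow_of_exponent_le h1 (by norm_num)
    _ = X := Real.rpow_one _

theorem pf_UPB (hGEN : T_GEN) (hUPM : T_UPM) (hTRN : T_TRN) (hSZK : T_SZK) :
    Pool.Agent.H93.EB.T_UPB := by
  classical
  intro ε hε
  obtain ⟨R, hR⟩ := hUPM ε hε
  obtain ⟨η, X1, Y1, hη, hG⟩ := hGEN R ε hε
  obtain ⟨N0, hN⟩ := hR η hη
  obtain ⟨Xs, hS⟩ := hSZK
  obtain ⟨t1, t2, t3, t4⟩ := hTRN
  refine ⟨max Y1 N0, max ⌈max X1 Xs⌉₊ 1, ?_⟩
  intro X H lam hX hlam hH hlog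
  have hX1 : 1 ≤ X := le_trans (le_max_right _ _) hX
  have hXr : max X1 Xs ≤ (X : ℝ) :=
    (Nat.le_ceil _).trans (by exact_mod_cast (le_max_left _ _).trans hX)
  have hHX : (H : ℝ) ≤ X :=
    le_self_of_quarter hX1 ((hS X ((le_max_right _ _).trans hXr)).1 H hlog)
  have hg := hG X H lam ((le_max_left _ _).trans hXr) ((le_max_left _ _).trans hH) hHX hlam
  rw [Nat.floor_natCast] at hg
  refine le_trans ?_ hg
  unfold lg
  rw [Finset.sum_filter]
  apply sum_le_sum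
  intro n hn
  have hn0 : (0 : ℝ) ≤ n := Nat.cast_nonneg _
  have ha := lio_abs hlam
  show max (M lam H n - (2 / Real.pi + ε)) 0 / (n : ℝ) ≤ _
  split_ifs with hE
  · rw [t2]
    apply div_le_div_of_nonneg_right _ hn0
    apply max_le _ (by norm_num)
    have h1 := Mx_le_one ha H n
    have h2 : 0 < 2 / Real.pi := by positivity
    linarith
  · rw [t2]
    have h1 : Mx lam H n ≤ 2 / Real.pi + ε := by
      apply hN H n lam ((le_max_right _ _).trans hH) ha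
      intro θ hθ
      by_contra hc
      exact hE ⟨θ, hθ, hc⟩
    rw [max_eq_right (by linarith), zero_div]

theorem pf_NEG (hNGN : T_NGN) (hGEN : T_GEN) (hUPM : T_UPM) (hTRN : T_TRN) (hSZK : T_SZK) :
    Pool.Agent.H93.EB.T_NEG := by
  classical
  intro ε hε
  obtain ⟨κ, s, c, X0, hκ, hs, hc, hA⟩ := hNGN ε hε
  obtain ⟨R, hR⟩ := hUPM s hs
  obtain ⟨η, X1, Y1, hη, hG⟩ := hGEN R κ hκ
  obtain ⟨N0, hN⟩ := hR η hη
  obtain ⟨Xs, hS⟩ := hSZK
  obtain ⟨t1, t2, t3, t4⟩ := hTRN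
  refine ⟨c, max Y1 N0, max ⌈max (max X1 Xs) X0⌉₊ 2, hc, ?_⟩
  intro X k lam hX hlam hk hk2 hM
  have hX2 : 2 ≤ X := le_trans (le_max_right _ _) hX
  have hXr : max (max X1 Xs) X0 ≤ (X : ℝ) :=
    (Nat.le_ceil _).trans (by exact_mod_cast (le_max_left _ _).trans hX)
  have hXa : max X1 Xs ≤ (X : ℝ) := (le_max_left _ _).trans hXr
  have hk3 : max Y1 N0 ≤ 2 ^ k := hk.trans (Nat.lt_two_pow_self).le
  have hHX : ((2 ^ k : ℕ) : ℝ) ≤ X :=
    le_self_of_quarter (by omega) ((hS X ((le_max_right _ _).trans hXa)).2.1 k hk2)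
  have hg := hG X (2 ^ k) lam ((le_max_left _ _).trans hXa) ((le_max_left _ _).trans hk3) hHX hlam
  rw [Nat.floor_natCast] at hg
  have ha := lio_abs hlam
  have hlX : 0 < Real.log X := Real.log_pos (by exact_mod_cast hX2)
  have h := hA X (fun n => Mx lam (2 ^ k) n)
    (fun n => ∃ θ : ℝ, 3 / 5 ≤ cor lam (2 ^ k) n θ ∧ ¬ Gen R η θ) ((le_max_right _ _).trans hXr)
    (fun n => ⟨Mx_nonneg ha _ _, Mx_le_one ha _ _⟩)
    (fun n _ hE => by
      apply hN (2 ^ k) n lam ((le_max_right _ _).trans hk3) ha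
      intro θ hθ
      by_contra hc
      exact hE ⟨θ, hθ, hc⟩) hg
    (by
      unfold lg at hM
      simpa only [t2] using hM)
  unfold t lg
  rw [le_div_iff₀ hlX, t3]
  simpa only [t2, t3] using h

theorem pf_TPB (hTOP : T_TOP) (hTRN : T_TRN) (hSZK : T_SZK) :
    Pool.Agent.H93.EB.T_TOP := by
  classical
  intro δ Q hδ
  obtain ⟨η, hη, hT⟩ := hTOP δ Q hδ
  refine ⟨η, hη, ?_⟩
  intro e he
  obtain ⟨κ, X0, Y0, hκ, hA⟩ := hT e he
  obtain ⟨Xs, hS⟩ := hSZK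
  obtain ⟨t1, t2, t3, t4⟩ := hTRN
  refine ⟨κ, Y0, max ⌈max X0 Xs⌉₊ 2, hκ, ?_⟩
  intro X k lam hX hlam hk hk2 hM
  have hX2 : 2 ≤ X := le_trans (le_max_right _ _) hX
  have hXr : max X0 Xs ≤ (X : ℝ) :=
    (Nat.le_ceil _).trans (by exact_mod_cast (le_max_left _ _).trans hX)
  have hk3 : Y0 ≤ 2 ^ k := hk.trans (Nat.lt_two_pow_self).le
  have hHX : ((2 ^ k : ℕ) : ℝ) ≤ X :=
    le_self_of_quarter (by omega) ((hS X ((le_max_right _ _).trans hXr)).2.1 k hk2)
  have hlX : 0 < Real.log X := Real.log_pos (by exact_mod_cast hX2)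
  unfold t lg at hM
  rw [le_div_iff₀ hlX, t3] at hM
  have h := hA X (2 ^ k) lam ((le_max_left _ _).trans hXr) hk3 hHX hlam
    (by
      rw [Nat.floor_natCast]
      simpa only [t2, t3] using hM)
  rw [Nat.floor_natCast] at h
  unfold Str
  rw [t4]
  convert h

end Pool.Agent.H91.TP
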